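import Pool.Agent.P.MP_263185_co.AQ.Main

/-! For every fraction above two that is not an integer, a point of the asymptotic spectrum of
graphs that is not left-continuous there on the fraction graphs. -/

namespace Pool.Agent.Results.MP_263185_co.FractionJump

open Pool.Agent.P.MP_263185_co.AL

theorem result (p q : ℕ) (hq : 0 < q) (hp : 2 * q < p) (hn : ¬ q ∣ p) :
    ∃ F : ∀ (V : Type) [Finite V], SimpleGraph V → ℝ, Spectral F ∧ ∃ δ : ℝ, 0 < δ ∧
      ∀ a b : ℕ, q * a < p * b →
        F (Fin a) (fraction a b) + δ ≤ F (Fin p) (fraction p q) :=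
  Pool.Agent.P.MP_263185_co.AQ.main_all Pool.Agent.P.MP_263185_co.AQ.t_THA p q hq hp hn

end Pool.Agent.Results.MP_263185_co.FractionJump
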