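import Pool.Agent.P.MP_263185_co.HC.Main

/-! The Shannon capacity of the complement of a categorical product can be below every power of
the smaller of the two capacities. -/

namespace Pool.Agent.Results.MP_263185_co.HedetniemiCapacity

open Filter Topology Pool.Agent.P.MP_263185_co Pool.Agent.P.MP_263185_co.HC

theorem result (ε : ℝ) (hε : 0 < ε) :
    ∃ (V W : Type) (_ : Finite V) (_ : Finite W) (G : SimpleGraph V) (H : SimpleGraph W)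
      (a b c : ℝ),
      Tendsto (fun k : ℕ => (codeSize Gᶜ k : ℝ) ^ (1 / (k : ℝ))) atTop (𝓝 a) ∧
      Tendsto (fun k : ℕ => (codeSize Hᶜ k : ℝ) ^ (1 / (k : ℝ))) atTop (𝓝 b) ∧
      Tendsto (fun k : ℕ => (codeSize (catProd G H)ᶜ k : ℝ) ^ (1 / (k : ℝ))) atTop (𝓝 c) ∧
      2 ≤ min a b ∧ c ≤ (min a b) ^ ε := by
  obtain ⟨s, hs⟩ := exists_nat_gt (2 / ε)
  have s1 : (0 : ℝ) < s := lt_trans (by positivity) hs
  have s0 : 0 < s := by exact_mod_cast s1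
  obtain ⟨U, hU⟩ : ∃ U : ℕ, U = 2 * 2 ^ s * s := ⟨_, rfl⟩
  have U0 : 0 < U := by rw [hU]; positivity
  obtain ⟨p, p1, p2, p3⟩ := primes s (s * U) (by positivity)
  obtain ⟨k, hk⟩ : ∃ k : ℕ, k = (s * U) ^ 2 := ⟨_, rfl⟩
  have k0 : 0 < k := by rw [hk]; positivity
  rw [← hk] at p3
  obtain ⟨ρ, hρ⟩ : ∃ ρ : ℕ, ρ = (k + 1) ^ (U * U) := ⟨_, rfl⟩
  have ρ2 : 2 ≤ ρ := by
    rw [hρ]
    exact le_trans (by omega) (Nat.le_self_pow (by positivity) _)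
  have r2 : 2 ≤ ρ ^ s := ρ2.trans (Nat.le_self_pow s0.ne' _)
  have hh : ∀ j, (k * (k + 1) + 1) ^ p j ≤ ρ := fun j =>
    calc _ ≤ ((k + 1) ^ 2) ^ p j := Nat.pow_le_pow_left (by nlinarith) _
      _ ≤ ((k + 1) ^ 2) ^ (2 ^ s * (s * U)) := Nat.pow_le_pow_right (by positivity) (p2 j)
      _ = ρ := by
        rw [hρ, ← pow_mul]
        congr 1
        nth_rewrite 2 [hU]
        ring
  have e : (ρ ^ s) ^ s = (k + 1) ^ k := by
    rw [hρ, ← pow_mul, ← pow_mul]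
    congr 1
    rw [hk]
    ring
  have : Nonempty (Fin s) := ⟨⟨0, s0⟩⟩
  have : Nonempty (Fin (ρ ^ s)) := ⟨⟨0, by omega⟩⟩
  obtain ⟨a, a1, a2⟩ := le_lim (gr p k (k + 1))ᶜ (ρ ^ s) s s0.ne' (by omega)
    (e.le.trans (lower s0 p k (k + 1) p3))
  obtain ⟨b, b1, b2⟩ := le_lim (⊤ : SimpleGraph (Fin (ρ ^ s)))ᶜ (ρ ^ s) 1 one_ne_zero (by omega)
    (top_code _)
  obtain ⟨c, c1, c2⟩ := lim_le _ s (ρ ^ 2) s0 (upper s0 p k (k + 1) ρ (by omega) p1 hh)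
  have m1 : ((ρ ^ s : ℕ) : ℝ) ≤ min a b := le_min a2 b2
  have ρ1 : (1 : ℝ) ≤ ρ := by exact_mod_cast (by omega : 1 ≤ ρ)
  refine ⟨_, _, inferInstance, inferInstance, _, _, a, b, c, a1, b1, c1,
    le_trans (by exact_mod_cast r2) m1, c2.trans ?_⟩
  refine le_trans ?_ (Real.rpow_le_rpow (by positivity) m1 hε.le)
  push_cast
  rw [← Real.rpow_natCast, ← Real.rpow_natCast, ← Real.rpow_mul (by positivity)]
  refine Real.rpow_le_rpow_of_exponent_le ρ1 ?_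
  rw [div_lt_iff₀ hε] at hs
  exact_mod_cast hs.le

end Pool.Agent.Results.MP_263185_co.HedetniemiCapacity
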