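import Pool.Agent.P.MP_263185_co.Frac

/-! The Shannon capacity of fraction graphs is left-continuous at five halves. -/

namespace Pool.Agent.Results.MP_263185_co.LeftLimit

open Filter Topology Pool.Agent.P.MP_263185_co

theorem result : ∀ ε : ℝ, 0 < ε → ∃ δ : ℝ, 0 < δ ∧ ∀ p q : ℕ, 0 < q →
    5 / 2 - δ < (p : ℝ) / q → (p : ℝ) / q ≤ 5 / 2 → ∃ Θ : ℝ,
      Tendsto (fun k : ℕ => (codeSize (frac p q) k : ℝ) ^ (1 / (k : ℝ))) atTop (𝓝 Θ) ∧
        √5 - ε < Θ ∧ Θ ≤ √5 := by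
  intro ε hε
  have s1 : (2 : ℝ) < √5 := (Real.lt_sqrt (by norm_num)).2 (by norm_num)
  have s2 : √5 ^ 2 = 5 := Real.sq_sqrt (by norm_num)
  obtain ⟨c, c0, c1, c2⟩ : ∃ c : ℝ, 0 < c ∧ √5 - ε ≤ c ∧ c < √5 :=
    ⟨max 1 (√5 - ε), by positivity, le_max_right _ _, max_lt (by linarith) (by linarith)⟩
  have t := tendsto_pow_atTop_nhds_zero_of_lt_one (r := c ^ 2 / 5) (by positivity)
    (by rw [div_lt_one (by norm_num)]; nlinarith)
  obtain ⟨m, hm, m0⟩ := ((t.eventually (gt_mem_nhds (show (0 : ℝ) < 1 / 2 by norm_num))).and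
    (eventually_gt_atTop 0)).exists
  obtain ⟨M, hM⟩ : ∃ M : ℝ, M = 5 ^ m + 2 := ⟨_, rfl⟩
  have M0 : 3 ≤ M := by have := one_le_pow₀ (M₀ := ℝ) (a := 5) (n := m) (by norm_num); linarith
  refine ⟨5 / 2 - 5 * M / (2 * M + 1), ?_, fun p q hq h1 h2 => ?_⟩
  · rw [sub_pos, div_lt_div_iff₀ (by linarith) (by norm_num)]; linarith
  have q0 : (0 : ℝ) < q := by exact_mod_cast hq
  rw [sub_sub_cancel, div_lt_div_iff₀ (by linarith) q0] at h1
  rw [div_le_div_iff₀ q0 (by norm_num)] at h2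
  have hp : 0 < p := Nat.pos_of_ne_zero fun e => by rw [e] at h1; push_cast at h1; nlinarith
  have : Nonempty (Fin p) := ⟨⟨0, hp⟩⟩
  obtain ⟨θ, a1, a2⟩ := exists_limit (frac p q)
  refine ⟨θ, a1, c1.trans_lt (a2 c (2 * m) (by omega) c0 ?_), le_of_tendsto a1 ?_⟩
  · have b1 : ((5 ^ m : ℕ) : ℝ) < (2 * codeSize (frac p q) (2 * m) : ℕ) := Nat.cast_lt.2
      (half m hp hq ((Nat.cast_le (α := ℝ)).1 (by push_cast; rw [← hM]; linarith)))
    rw [div_pow, div_lt_iff₀ (by positivity), ← pow_mul] at hm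
    push_cast at b1
    linarith
  · filter_upwards [eventually_gt_atTop 0] with k hk
    have b1 : (codeSize (frac p q) k : ℝ) ≤ √5 ^ k := le_trans (Nat.cast_le.2
      (frac_mono hp (by norm_num) (by norm_num)
        ((Nat.cast_le (α := ℝ)).1 (by push_cast; linarith)))) (pent k)
    calc _ ≤ (√5 ^ k) ^ (1 / (k : ℝ)) := Real.rpow_le_rpow (by positivity) b1 (by positivity)
      _ = _ := by rw [one_div, Real.pow_rpow_inv_natCast (by positivity) hk.ne']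

end Pool.Agent.Results.MP_263185_co.LeftLimit
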