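import Pool.Agent.P.MP_263185_co.CertB

/-! A lower bound for the Shannon capacity of the seven-cycle. -/

namespace Pool.Agent.Results.MP_263185_co.LowerBoundB

open Filter Topology Pool.Agent.P.MP_263185_co

theorem result : ∃ Θ : ℝ,
    Tendsto (fun k : ℕ => (codeSize (SimpleGraph.cycleGraph 7) k : ℝ) ^ (1 / (k : ℝ))) atTop
      (𝓝 Θ) ∧ (3.2589252 : ℝ) < Θ := by
  obtain ⟨θ, h1, h2⟩ := exists_limit C7
  refine ⟨θ, h1, h2 _ 695 (by decide) (by norm_num) ?_⟩
  have h3 : 32589252 ^ 695 < CertB.w17.getD 0 0 * (10 ^ 7) ^ 695 := by decide +kernel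
  have h4 : 32589252 ^ 695 < codeSize C7 695 * (10 ^ 7) ^ 695 :=
    h3.trans_le (Nat.mul_le_mul_right _ CertB.final)
  have h5 : (3.2589252 : ℝ) = (32589252 : ℕ) / (10 ^ 7 : ℕ) := by norm_num
  rw [h5, div_pow, div_lt_iff₀ (by positivity)]
  exact_mod_cast h4

end Pool.Agent.Results.MP_263185_co.LowerBoundB
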